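import Pool.Agent.K4H49.DM.Fin

set_option autoImplicit false

/-!
# The sixth moment of zeta along almost every vertical arithmetic progression

There is a null set `E` such that for every `α > 0` outside `E` and every bounded set of shifts `β` the sums
`α ∑_{n ≤ N} |ζ(1/2 + i(α n + β))|^6` are squeezed between `(1 ∓ ε) ∫_0^{(1 ∓ ε) α N} |ζ(1/2 + it)|^6 dt`.
Hence the conjecture of Conrey and Ghosh (any asymptotic formula `c T log^9 T`) is equivalent to its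
discrete version along every single such progression, and the known lower bound holds there.

Parts of the proof (`DM/Strip.lean`, `DM/Decay.lean`) are due to helper3.
-/

open MeasureTheory Filter Topology

theorem Pool.Agent.Results.MP_39df77_nt.DiscreteSixthMoment.result :
    ∃ E : Set ℝ, volume E = 0 ∧ ∀ α : ℝ, 0 < α → α ∉ E →
      -- the sums along the progression and the integral
      (∀ ε B : ℝ, 0 < ε → ε < 1 → 0 ≤ B → ∀ᶠ N : ℕ in atTop, ∀ β : ℝ, |β| ≤ B →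
        (1 - ε) * (∫ t in (0 : ℝ)..((1 - ε) * (α * N)), ‖riemannZeta (1 / 2 + t * Complex.I)‖ ^ 6) ≤
            α * ∑ n ∈ Finset.Icc 1 N,
              ‖riemannZeta (1 / 2 + ((α * n + β : ℝ) : ℂ) * Complex.I)‖ ^ 6 ∧
          α * ∑ n ∈ Finset.Icc 1 N,
              ‖riemannZeta (1 / 2 + ((α * n + β : ℝ) : ℂ) * Complex.I)‖ ^ 6 ≤
            (1 + ε) * (∫ t in (0 : ℝ)..((1 + ε) * (α * N)),
              ‖riemannZeta (1 / 2 + t * Complex.I)‖ ^ 6)) ∧
      -- the equivalence of the asymptotic formulas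
      (∀ β c : ℝ,
        Tendsto (fun T : ℝ => (∫ t in (0 : ℝ)..T, ‖riemannZeta (1 / 2 + t * Complex.I)‖ ^ 6) /
            (T * Real.log T ^ 9)) atTop (𝓝 c) ↔
          Tendsto (fun N : ℕ => (∑ n ∈ Finset.Icc 1 N,
            ‖riemannZeta (1 / 2 + ((α * n + β : ℝ) : ℂ) * Complex.I)‖ ^ 6) /
            (N * Real.log N ^ 9)) atTop (𝓝 c)) ∧
      -- the lower bound
      (∀ B c : ℝ, 0 ≤ B →
        c < 34.4 * (∏' p : Nat.Primes, ((1 - 1 / (p : ℝ)) ^ 9 *
          ∑' m : ℕ, ((m + 2).choose 2 : ℝ) ^ 2 * (1 / (p : ℝ)) ^ m)) / (Nat.factorial 9 : ℝ) →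
        ∀ᶠ N : ℕ in atTop, ∀ β : ℝ, |β| ≤ B →
          c * (N * Real.log N ^ 9) ≤ ∑ n ∈ Finset.Icc 1 N,
            ‖riemannZeta (1 / 2 + ((α * n + β : ℝ) : ℂ) * Complex.I)‖ ^ 6) := by
  have hf : (fun t : ℝ => ‖riemannZeta (1 / 2 + t * Complex.I)‖ ^ 6) = Pool.Agent.K4H49.DM.f := by
    funext t
    rw [Pool.Agent.K4H49.DM.f_eq]
  have hMo : ∀ T : ℝ, (∫ t in (0 : ℝ)..T, ‖riemannZeta (1 / 2 + t * Complex.I)‖ ^ 6) =
      Pool.Agent.K4H49.DM.Mo T := by
    intro T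
    unfold Pool.Agent.K4H49.DM.Mo
    rw [← hf]
  have hSu : ∀ (α β : ℝ) (N : ℕ), ∑ n ∈ Finset.Icc 1 N,
      ‖riemannZeta (1 / 2 + ((α * n + β : ℝ) : ℂ) * Complex.I)‖ ^ 6 =
      Pool.Agent.K4H49.DM.Su α β N := by
    intro α β N
    unfold Pool.Agent.K4H49.DM.Su
    refine Finset.sum_congr rfl fun n _ => ?_
    rw [Pool.Agent.K4H49.DM.f_eq]
  refine ⟨Pool.Agent.K4H49.DM.E0, Pool.Agent.K4H49.DM.null, fun α hα hE => ⟨?_, ?_, ?_⟩⟩
  · intro ε B hε hε1 hB
    filter_upwards [Pool.Agent.K4H49.DM.sandwich Pool.Agent.K4H49.DM.lowB hα hE hε hε1 hB] with N hN β hβ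
    rw [hSu, hMo, hMo]
    exact hN β hβ
  · intro β c
    simp only [hSu, hMo]
    refine Pool.Agent.K4H49.DM.equiv_of_sandwich Pool.Agent.K4H49.DM.Mo
      (fun S T h => Pool.Agent.K4H49.DM.Mo_mono h) hα (Pool.Agent.K4H49.DM.Su α β)
      (fun ε hε hε1 => ?_) c
    filter_upwards [Pool.Agent.K4H49.DM.sandwich Pool.Agent.K4H49.DM.lowB hα hE hε hε1
      (abs_nonneg β)] with N hN
    exact hN β le_rfl
  · intro B c hB hc
    filter_upwards [Pool.Agent.K4H49.DM.Su_low hα hE hB hc] with N hN β hβ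
    rw [hSu]
    exact hN β hβ
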