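import Pool.Agent.K4H95.ZP.Asy

/-!
MP_39df77_nt. The moments of order `4 + 2k` (`k = 1`: the sixth moment) with `|ζ|^(4 + 2k)` replaced by
`|ζ(1/2 + it)|^4 Z_T(t)^(2k)`, where `Z_T` is a smoothly cut Euler product,
`Z_T(t) = ∏_p |1 - p^(-1/2 - it)|^(-w(log p / T))`, `w(u) = cos(γ u) / Γ(1 + u)`, `γ > π/2`, which tends to
`|ζ(1/2 + it)|` as `T → ∞` for every `t ≠ 0` (at a zero of order `m` the limit of `T^m Z_T(t)` exists and is not zero).
For all real `k` and `T > 0` the mean of `|ζ(1/2 + it)|^4 Z_T(t)^(2k)` over `[0, X]` is asymptotic to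
`L_k(T) (log X)^4`, and `L_k(T)` is asymptotic to `(1/12) a(2 + k) κ₁^k κ₂^(k²) T^(4k + k²)`, with the arithmetic
factor `a(2 + k)` of the conjectured moment; `a(3) = a_3`.
-/

set_option autoImplicit false

open Filter Topology

/-- the Euler product `∏_p |1 - p^(-1/2-it)|^(-w(p))` -/
noncomputable def Pool.Agent.Results.MP_39df77_nt.EulerProductFactor.EP (w : Nat.Primes → ℝ) (t : ℝ) : ℝ :=
  ∏' p : Nat.Primes, ‖1 - ((p : ℕ) : ℂ) ^ (-(1 / 2 + Complex.I * t))‖ ^ (-(w p))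

/-- the smooth cut-off `cos(γu) / Γ(1 + u)`, `u = log p / T` -/
noncomputable def Pool.Agent.Results.MP_39df77_nt.EulerProductFactor.wt (γ T : ℝ) (p : Nat.Primes) : ℝ :=
  Real.cos (γ * (Real.log (p : ℕ) / T)) / Real.Gamma (1 + Real.log (p : ℕ) / T)

/-- the mean of `|1 - p^(-1/2) e(θ)|^(-2s)` over `θ ∈ [0, 1]` -/
noncomputable def Pool.Agent.Results.MP_39df77_nt.EulerProductFactor.loc (p : Nat.Primes) (s : ℝ) : ℝ :=
  ∫ θ in (0:ℝ)..1, ‖1 - Complex.exp (2 * Real.pi * Complex.I * θ) / ((√((p : ℕ) : ℝ) : ℝ) : ℂ)‖ ^ (-(2 * s))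

/-- the arithmetic factor `a(s) = ∏_p (1 - 1/p)^(s²) loc(p, s)` -/
noncomputable def Pool.Agent.Results.MP_39df77_nt.EulerProductFactor.ar (s : ℝ) : ℝ :=
  ∏' p : Nat.Primes, (1 - 1 / ((p : ℕ) : ℝ)) ^ (s ^ 2) * Pool.Agent.Results.MP_39df77_nt.EulerProductFactor.loc p s

/-- the constant `(1/12) ∏_p (1 - 1/p)^4 loc(p, 2 + w(p))` -/
noncomputable def Pool.Agent.Results.MP_39df77_nt.EulerProductFactor.co (w : Nat.Primes → ℝ) : ℝ :=
  1 / 12 * ∏' p : Nat.Primes, (1 - 1 / ((p : ℕ) : ℝ)) ^ 4 *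
    Pool.Agent.Results.MP_39df77_nt.EulerProductFactor.loc p (2 + w p)

open Pool.Agent.Results.MP_39df77_nt.EulerProductFactor in
theorem Pool.Agent.Results.MP_39df77_nt.EulerProductFactor.result :
    (∀ γ : ℝ, Real.pi / 2 < γ →
      (∀ T : ℝ, 0 < T → (Summable fun p : Nat.Primes => |wt γ T p| / √((p : ℕ) : ℝ)) ∧
        ∀ t : ℝ, 0 < EP (wt γ T) t ∧ Multipliable fun p : Nat.Primes =>
          ‖1 - ((p : ℕ) : ℂ) ^ (-(1 / 2 + Complex.I * t))‖ ^ (-(wt γ T p))) ∧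
      (∃ l : ℝ, ∀ t : ℝ, t ≠ 0 →
        (riemannZeta (1 / 2 + Complex.I * t) ≠ 0 →
          Tendsto (fun T : ℝ => EP (wt γ T) t) atTop (𝓝 ‖riemannZeta (1 / 2 + Complex.I * t)‖)) ∧
        ∃ m : ℤ, meromorphicOrderAt riemannZeta (1 / 2 + Complex.I * t) = m ∧
          Tendsto (fun T : ℝ => T ^ m * EP (wt γ T) t) atTop
            (𝓝 (Real.exp (m * l) * ‖meromorphicTrailingCoeffAt riemannZeta (1 / 2 + Complex.I * t)‖))) ∧
      ∃ κ₁ κ₂ : ℝ, 0 < κ₁ ∧ 0 < κ₂ ∧ ∀ k : ℝ,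
        (∀ T : ℝ, 0 < T → (Multipliable fun p : Nat.Primes =>
            (1 - 1 / ((p : ℕ) : ℝ)) ^ 4 * loc p (2 + k * wt γ T p)) ∧ 0 < co (fun p => k * wt γ T p) ∧
          Tendsto (fun X : ℝ => (1 / X * ∫ t in (0:ℝ)..X,
          ‖riemannZeta (1 / 2 + Complex.I * t)‖ ^ 4 * EP (wt γ T) t ^ (2 * k)) / Real.log X ^ 4) atTop
            (𝓝 (co fun p => k * wt γ T p))) ∧
        (Multipliable fun p : Nat.Primes => (1 - 1 / ((p : ℕ) : ℝ)) ^ ((2 + k) ^ 2) * loc p (2 + k)) ∧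
        0 < ar (2 + k) ∧
        Tendsto (fun T : ℝ => co (fun p => k * wt γ T p) / T ^ (4 * k + k ^ 2)) atTop
          (𝓝 (1 / 12 * ar (2 + k) * κ₁ ^ k * κ₂ ^ (k ^ 2)))) ∧
    ∀ k : ℕ, 1 ≤ k → ar k = ∏' p : Nat.Primes, (1 - 1 / ((p : ℕ) : ℝ)) ^ (k ^ 2) *
      ∑' m : ℕ, (((m + k - 1).choose m : ℕ) : ℝ) ^ 2 / ((p : ℕ) : ℝ) ^ m := by
  have hloc : ∀ (p : Nat.Primes) (s : ℝ), loc p s = Pool.Agent.K4H95.ZP.LM (Pool.Agent.Y852.SX.rp p) s := by
    intro p s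
    unfold loc Pool.Agent.K4H95.ZP.LM Pool.Agent.TH806.uu
    rw [intervalIntegral.integral_of_le zero_le_one]
    congr 1
    funext θ
    unfold Pool.Agent.K4H95.ZP.Nr Pool.Agent.TH806.ec
    rw [Pool.Agent.K4H95.ZP.rp_eq p.2]
    congr 3
    push_cast
    rw [div_eq_mul_inv, mul_comm, one_div]
    congr 2
    ring
  have hco : ∀ w : Nat.Primes → ℝ, co w = Pool.Agent.K4H95.ZP.cw w := by
    intro w
    unfold co Pool.Agent.K4H95.ZP.cw
    simp only [hloc]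
  have har : ∀ s : ℝ, ar s = Pool.Agent.K4H95.ZP.arr s := by
    intro s
    unfold ar Pool.Agent.K4H95.ZP.arr
    simp only [hloc]
  have hwt : ∀ γ T : ℝ, wt γ T = Pool.Agent.K4H95.ZP.wp γ T := fun γ T => rfl
  have hfac : ∀ (p : Nat.Primes) (t : ℝ), ‖1 - ((p : ℕ) : ℂ) ^ (-(1 / 2 + Complex.I * t))‖ =
      Pool.Agent.K4H95.ZP.Nr (Pool.Agent.Y852.SX.rp p) (Pool.Agent.K4H95.ZP.th p t) := by
    intro p t
    rw [mul_comm Complex.I]
    exact Pool.Agent.K4H95.ZP.fac_eq p t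
  have hpos : ∀ (p : Nat.Primes) (t : ℝ), 0 < ‖1 - ((p : ℕ) : ℂ) ^ (-(1 / 2 + Complex.I * t))‖ := by
    intro p t
    rw [hfac]
    exact Pool.Agent.K4H95.ZP.Nr_pos (Pool.Agent.Y852.SX.rp_pos p).le (Pool.Agent.Y852.SX.rp_lt p p.2) _
  have hlg : ∀ (p : Nat.Primes) (t : ℝ), Real.log ‖1 - ((p : ℕ) : ℂ) ^ (-(1 / 2 + Complex.I * t))‖ =
      Pool.Agent.K4H95.ZP.ell t p := by
    intro p t
    rw [hfac, Pool.Agent.K4H95.ZP.ell_eq]
  have hsum : ∀ w : Nat.Primes → ℝ, (Summable fun p : Nat.Primes => |w p| / √((p : ℕ) : ℝ)) →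
      Summable fun p : Nat.Primes => |w p| * Pool.Agent.Y852.SX.rp p := by
    intro w hw
    refine hw.congr fun p => ?_
    rw [Pool.Agent.K4H95.ZP.rp_eq p.2]
    ring
  have hlogs : ∀ w : Nat.Primes → ℝ, (Summable fun p : Nat.Primes => |w p| * Pool.Agent.Y852.SX.rp p) → ∀ t : ℝ,
      Summable fun p : Nat.Primes => Real.log (‖1 - ((p : ℕ) : ℂ) ^ (-(1 / 2 + Complex.I * t))‖ ^ (-(w p))) := by
    intro w hw t
    refine Summable.of_norm_bounded (hw.mul_left 4) fun p => ?_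
    rw [Real.log_rpow (hpos p t), hlg, norm_mul, norm_neg, Real.norm_eq_abs, Real.norm_eq_abs]
    calc |w p| * |Pool.Agent.K4H95.ZP.ell t p| ≤ |w p| * (4 * Pool.Agent.Y852.SX.rp p) :=
          mul_le_mul_of_nonneg_left (Pool.Agent.K4H95.ZP.ell_bd p t) (abs_nonneg _)
      _ = _ := by ring
  have hEP : ∀ w : Nat.Primes → ℝ, (Summable fun p : Nat.Primes => |w p| * Pool.Agent.Y852.SX.rp p) → ∀ t : ℝ,
      EP w t = Real.exp (-∑' p : Nat.Primes, w p * Pool.Agent.K4H95.ZP.ell t p) := by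
    intro w hw t
    unfold EP
    rw [← Real.rexp_tsum_eq_tprod (fun p => Real.rpow_pos_of_pos (hpos p t) _) (hlogs w hw t), ← tsum_neg]
    congr 1
    refine tsum_congr fun p => ?_
    rw [Real.log_rpow (hpos p t), hlg]
    ring
  have hX : ∀ t : ℝ, Pool.Agent.Y969.SM.Xz t = ‖riemannZeta (1 / 2 + Complex.I * t)‖ := by
    intro t
    unfold Pool.Agent.Y969.SM.Xz Pool.Agent.H306R2.SM.cl
    rw [mul_comm Complex.I]
  refine ⟨fun γ hγ => ⟨fun T hT => ?_, ?_, ?_⟩, fun k hk => ?_⟩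
  · have h1 := Pool.Agent.K4H95.ZP.wp_sum γ hT 1
    simp only [one_mul] at h1
    rw [← hwt] at h1
    refine ⟨h1.congr fun p => ?_, fun t => ⟨?_, ?_⟩⟩
    · rw [Pool.Agent.K4H95.ZP.rp_eq p.2]
      ring
    · rw [hEP _ h1]
      exact Real.exp_pos _
    · exact Real.multipliable_of_summable_log (fun p => Real.rpow_pos_of_pos (hpos p t) _) (hlogs _ h1 t)
  · refine ⟨(Pool.Agent.W187.UR.Lam γ).re, fun t ht => ?_⟩
    obtain ⟨m, hm, hlim⟩ := Pool.Agent.K4H95.ZP.ptw ht hγ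
    have e0 : (t : ℂ) * Complex.I = Complex.I * t := mul_comm _ _
    rw [e0] at hm hlim
    have hlim' : Tendsto (fun T : ℝ => T ^ m * EP (wt γ T) t) atTop
        (𝓝 (Real.exp (m * (Pool.Agent.W187.UR.Lam γ).re) *
          ‖meromorphicTrailingCoeffAt riemannZeta (1 / 2 + Complex.I * t)‖)) := by
      refine hlim.congr' ?_
      filter_upwards [eventually_gt_atTop (0:ℝ)] with T hT
      have h1 := Pool.Agent.K4H95.ZP.wp_sum γ hT 1
      simp only [one_mul] at h1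
      rw [hwt, hEP _ h1]
      rfl
    refine ⟨fun hz => ?_, m, hm, hlim'⟩
    have h1 : (1 / 2 + Complex.I * t : ℂ) ≠ 1 := by
      intro h
      have := congrArg Complex.re h
      norm_num at this
    have han : AnalyticAt ℂ riemannZeta (1 / 2 + Complex.I * t) := by
      rw [Complex.analyticAt_iff_eventually_differentiableAt]
      filter_upwards [isOpen_ne.mem_nhds h1] with z hz
      exact differentiableAt_riemannZeta hz
    have hm0 : m = 0 := by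
      rw [han.meromorphicOrderAt_eq, han.analyticOrderAt_eq_zero.2 hz] at hm
      have : ((0 : ℤ) : WithTop ℤ) = (m : WithTop ℤ) := by simpa using hm
      exact_mod_cast this.symm
    subst hm0
    rw [han.meromorphicTrailingCoeffAt_of_ne_zero hz] at hlim'
    simpa using hlim'
  · obtain ⟨κ₁, κ₂, h1, h2, h3⟩ := Pool.Agent.K4H95.ZP.cw_asymp γ
    refine ⟨κ₁, κ₂, h1, h2, fun k => ⟨fun T hT => ⟨?_, ?_, ?_⟩, ?_, ?_, ?_⟩⟩
    · simp only [hloc]
      exact (Pool.Agent.K4H95.ZP.cw_mul (Pool.Agent.K4H95.ZP.wp_sum γ hT k)).1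
    · rw [hco]
      exact (Pool.Agent.K4H95.ZP.cw_mul (Pool.Agent.K4H95.ZP.wp_sum γ hT k)).2
    · have h4 := Pool.Agent.K4H95.ZP.moment_c (Pool.Agent.K4H95.ZP.wp_sum γ hT k)
      rw [hco]
      refine h4.congr fun X => ?_
      have h5 := Pool.Agent.K4H95.ZP.wp_sum γ hT 1
      simp only [one_mul] at h5
      have e1 : ∀ t : ℝ, EP (wt γ T) t ^ (2 * k) =
          Real.exp (-∑' p : Nat.Primes, k * Pool.Agent.K4H95.ZP.wp γ T p * Pool.Agent.K4H95.ZP.ell t p) ^ (2:ℝ) := by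
        intro t
        rw [hwt, hEP _ h5, ← Real.exp_mul, ← Real.exp_mul]
        congr 1
        have e2 : ∑' p : Nat.Primes, k * Pool.Agent.K4H95.ZP.wp γ T p * Pool.Agent.K4H95.ZP.ell t p =
            k * ∑' p : Nat.Primes, Pool.Agent.K4H95.ZP.wp γ T p * Pool.Agent.K4H95.ZP.ell t p := by
          rw [← tsum_mul_left]
          exact tsum_congr fun p => by ring
        rw [e2]
        ring
      simp only [e1, hX]
      rw [one_div_mul_eq_div, div_div]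
    · simp only [hloc]
      exact (h3 k).1
    · rw [har]
      exact (h3 k).2.1
    · rw [har]
      simp only [hco]
      exact (h3 k).2.2
  · obtain ⟨n, rfl⟩ : ∃ n, k = n + 1 := ⟨k - 1, by omega⟩
    rw [har]
    have h1 := Pool.Agent.K4H95.ZP.arr_nat n
    rw [Nat.cast_add, Nat.cast_one, h1]
    refine tprod_congr fun p => ?_
    congr 1
    refine tsum_congr fun m => ?_
    have e1 : m + (n + 1) - 1 = m + n := by omega
    rw [e1, Nat.choose_symm_add]
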