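import Pool.Agent.K4H66.HL.O

set_option autoImplicit false

/-!
MP_39df77_nt. The sixth moment of zeta and the mean square of one smooth Dirichlet polynomial of length
`T^(3/2 + δ)` with the coefficients `d_3(n)`, `n ≥ T^(1 - δ)`.
-/

namespace Pool.Agent.Results.MP_39df77_nt.HalfLengthPolynomial

open Complex MeasureTheory Filter Topology
open scoped ContDiff

/-- `∫_A^B |ζ(1/2 + it)|^6 dt` -/
noncomputable def sixth (A B : ℝ) : ℝ := ∫ t in A..B, ‖riemannZeta (1 / 2 + I * t)‖ ^ 6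

/-- `M_3(T)` of the problem -/
noncomputable def M3 (T : ℝ) : ℝ := 1 / T * sixth 0 T

/-- `a_3` of the problem -/
noncomputable def a3 : ℝ :=
  ∏' p : Nat.Primes, ((1 - 1 / (p : ℝ)) ^ 9 * ∑' m : ℕ, ((m + 2).choose 2 : ℝ) ^ 2 * (1 / (p : ℝ)) ^ m)

/-- `d_3(n)`, the number of `(a, b, c)` with `abc = n` -/
def d3 (n : ℕ) : ℕ := (Nat.finMulAntidiag 3 n).card

/-- The Dirichlet polynomial `D_φ(T, t) = Σ_n d_3(n) φ(log n / log T) n^(-1/2 - it)` -/
noncomputable def D (φ : ℝ → ℂ) (T t : ℝ) : ℂ :=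
  ∑' n : ℕ, (d3 n : ℂ) * φ (Real.log n / Real.log T) * (n : ℂ) ^ (-(1 / 2 + I * t) : ℂ)

/-- Its mean square `(1/T) ∫_T^(2T) |D_φ(T, t)|² dt` -/
noncomputable def S (φ : ℝ → ℂ) (T : ℝ) : ℝ := 1 / T * ∫ t in T..(2 * T), ‖D φ T t‖ ^ 2

/-- Admissible cut-offs: smooth, of compact support, `|φ(x)|² + |φ(3 - x)|² = 1` for `1 ≤ x ≤ 2` -/
def Admissible (φ : ℝ → ℂ) : Prop :=
  ContDiff ℝ ∞ φ ∧ HasCompactSupport φ ∧ ∀ x ∈ Set.Icc (1:ℝ) 2, ‖φ x‖ ^ 2 + ‖φ (3 - x)‖ ^ 2 = 1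

/-- The constant `(a_3 / 8!) ∫_0^1 (|φ(x)|² + |φ(3 - x)|² - 1) x^8 dx`; it is `0` if
`|φ(x)|² + |φ(3 - x)|² = 1` on `[0, 3]`. -/
noncomputable def J (φ : ℝ → ℂ) : ℝ :=
  a3 / (Nat.factorial 8 : ℝ) * ∫ x in (0:ℝ)..1, (‖φ x‖ ^ 2 + ‖φ (3 - x)‖ ^ 2 - 1) * x ^ 8

/-- `limsup f(T) / log^9 T ≤ c` -/
def UpperBound (f : ℝ → ℝ) (c : ℝ) : Prop := ∀ ε : ℝ, 0 < ε → ∀ᶠ T : ℝ in atTop, f T ≤ (c + ε) * Real.log T ^ 9

/-- `liminf f(T) / log^9 T ≥ c` -/
def LowerBound (f : ℝ → ℝ) (c : ℝ) : Prop := ∀ ε : ℝ, 0 < ε → ∀ᶠ T : ℝ in atTop, (c - ε) * Real.log T ^ 9 ≤ f T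

lemma lc_nat (k : ℕ) (hk : 1 ≤ k) (m : ℕ) : H306R2.lc (k : ℝ) m = ((m + k - 1).choose m : ℝ) := by
  induction m with
  | zero => simp [H306R2.lc]
  | succ m ih =>
    have h0 : H306R2.lc (k:ℝ) (m + 1) = H306R2.lc k m * ((k + m) / ((m : ℝ) + 1)) := by
      unfold H306R2.lc
      rw [Finset.prod_range_succ]
    rw [h0, ih]
    have h1 : m + 1 + k - 1 = (m + k - 1) + 1 := by omega
    have h2 : ((m + k - 1) + 1) * (m + k - 1).choose m = ((m + k - 1) + 1).choose (m + 1) * (m + 1) :=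
      Nat.add_one_mul_choose_eq (m + k - 1) m
    have h3 : (((m + k - 1 + 1 : ℕ)) : ℝ) = m + k := by
      rw [show m + k - 1 + 1 = m + k by omega]; push_cast; ring
    have h4 : ((m : ℝ) + k) * ((m + k - 1).choose m : ℝ) =
        (((m + k - 1) + 1).choose (m + 1) : ℝ) * ((m : ℝ) + 1) := by
      rw [← h3]
      exact_mod_cast h2
    rw [h1]
    have h5 : (m : ℝ) + 1 ≠ 0 := by positivity
    rw [← mul_div_assoc, div_eq_iff h5, ← h4]
    ring

lemma a3_eq : a3 = H306R2.aF ((3:ℕ):ℝ) := by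
  unfold a3 H306R2.aF
  refine tprod_congr fun p => ?_
  congr 1
  · have h := Real.rpow_natCast (1 - 1 / (p : ℝ)) 9
    rw [← h]
    congr 1
    norm_num
  · refine tsum_congr fun m => ?_
    rw [lc_nat 3 (by norm_num)]
    congr 3
    rw [show m + 3 - 1 = m + 2 by omega, ← Nat.choose_symm (by omega : 2 ≤ m + 2)]
    congr 1

lemma a3_pos : 0 < a3 := by
  rw [a3_eq]
  exact H306R2.aF_pos (by norm_num)

lemma D_eq (φ : ℝ → ℂ) (T t : ℝ) : D φ T t = K4H66.HL.DP φ 3 T t := rfl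

lemma mD_eq (φ : ℝ → ℂ) {T : ℝ} (hT : T ≠ 0) : K4H66.HL.mD φ 3 T = T * S φ T := by
  unfold S K4H66.HL.mD
  simp_rw [D_eq]
  field_simp

lemma z_eq (t : ℝ) : ‖K4H66.OL.zr 3 0 t‖ ^ 2 = ‖riemannZeta (1 / 2 + I * t)‖ ^ 6 := by
  unfold K4H66.OL.zr
  rw [norm_pow, ← pow_mul]
  norm_num
  rw [mul_comm]

lemma M_eq (T : ℝ) : TH535.SM.M (K4H66.OL.zr 3 0) T = sixth 0 T := by
  unfold TH535.SM.M sixth
  simp_rw [z_eq]

lemma sixth_sub (A B : ℝ) : sixth 0 B - sixth 0 A = sixth A B := by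
  have D := K4H66.HL.zdat 3 (u := 1) le_rfl
  have hc : Continuous (fun t : ℝ => ‖riemannZeta (1 / 2 + I * t)‖ ^ 6) := by
    have := D.sc
    simp_rw [z_eq] at this
    exact this
  unfold sixth
  rw [intervalIntegral.integral_interval_sub_left (hc.intervalIntegrable _ _) (hc.intervalIntegrable _ _)]

lemma NN_eq (T : ℝ) : R446.KR.NN (3 ^ 2) T = T * Real.log T ^ 9 := by
  unfold R446.KR.NN
  norm_num

lemma J_eq (φ : ℝ → ℂ) : K4H66.HL.Jc φ 3 = J φ := by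
  unfold K4H66.HL.Jc J K4H66.HL.we K4H66.HL.g0
  rw [a3_eq, div_mul_eq_mul_div, mul_div_assoc, ← intervalIntegral.integral_div]
  congr 1
  refine intervalIntegral.integral_congr fun x _ => ?_
  norm_num
  ring

/-- **Main theorem.**
For every admissible `φ`:
(1) for every real `c`, `M_3(T)/log^9 T → c` if and only if `S_φ(T)/log^9 T → c/2 + J_φ`;
(2) the conjecture Q1 holds if and only if `S_φ(T)/log^9 T → 21 a_3/9! + J_φ`;
(3), (4) upper and lower bounds for `S_φ` transfer to `M_3` with the constants of (1);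
(5) `M_3(T) = O(log^9 T)` if and only if `S_φ(T) = O(log^9 T)`;
(6) for `θ > 0`, `M_3(T) = O(T^θ)` if and only if `S_φ(T) = O(T^θ)`;
(7) unconditionally, for every `ε > 0`, the difference of `2 ∫_T^(2T) |D_φ|²` and
`∫_T^(2T) |ζ|^6 + 2 J_φ T log^9 T` is at most `ε ∫_0^(2T) |ζ|^6` for all large `T` except, in each `[X, 2X]`, a set
of measure at most `C √X log X`.
(8) For every `δ > 0` there is an admissible `φ` with values in `[0, 1]` and support in `[1 - δ, 3/2 + δ]`: only the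
`n` with `T^(1 - δ) ≤ n ≤ T^(3/2 + δ)` occur in `D_φ(T, t)`. -/
theorem result :
    (∀ φ : ℝ → ℂ, Admissible φ →
      (∀ c : ℝ, Tendsto (fun T => M3 T / Real.log T ^ 9) atTop (𝓝 c) ↔
        Tendsto (fun T => S φ T / Real.log T ^ 9) atTop (𝓝 (c / 2 + J φ))) ∧
      (Tendsto (fun T => M3 T / (42 * a3 / (Nat.factorial 9 : ℝ) * Real.log T ^ 9)) atTop (𝓝 1) ↔
        Tendsto (fun T => S φ T / Real.log T ^ 9) atTop (𝓝 (21 * a3 / (Nat.factorial 9 : ℝ) + J φ))) ∧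
      (∀ c : ℝ, UpperBound (S φ) (c / 2 + J φ) → UpperBound M3 c) ∧
      (∀ c : ℝ, LowerBound (S φ) (c / 2 + J φ) → LowerBound M3 c) ∧
      ((∃ B : ℝ, ∀ᶠ T in atTop, M3 T ≤ B * Real.log T ^ 9) ↔ ∃ B : ℝ, ∀ᶠ T in atTop, S φ T ≤ B * Real.log T ^ 9) ∧
      (∀ θ : ℝ, 0 < θ →
        ((∃ B : ℝ, ∀ᶠ T in atTop, M3 T ≤ B * T ^ θ) ↔ ∃ B : ℝ, ∀ᶠ T in atTop, S φ T ≤ B * T ^ θ)) ∧
      (∀ ε : ℝ, 0 < ε → ∃ C X₀ : ℝ, ∀ X : ℝ, X₀ ≤ X → ∃ E : Set ℝ, MeasurableSet E ∧ E ⊆ Set.Icc X (2 * X) ∧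
        volume E ≤ ENNReal.ofReal (C * (√X * Real.log X)) ∧ ∀ T ∈ Set.Icc X (2 * X) \ E,
          |2 * (∫ t in T..(2 * T), ‖D φ T t‖ ^ 2) - (sixth T (2 * T) + 2 * J φ * (T * Real.log T ^ 9))| ≤
            ε * sixth 0 (2 * T))) ∧
    (∀ δ : ℝ, 0 < δ → ∃ φ : ℝ → ℂ, Admissible φ ∧ (∀ x, x ∉ Set.Icc (1 - δ) (3 / 2 + δ) → φ x = 0) ∧
      ∀ x, ∃ r ∈ Set.Icc (0:ℝ) 1, φ x = r) := by
  have e3 : ((3:ℕ):ℝ) = 3 := by norm_num
  constructor
  · rintro φ ⟨h1, h2, h3⟩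
    have hT : K4H66.HL.TS φ := ⟨h1, h2⟩
    have hk : 2 ≤ 3 := by norm_num
    have hφ : ∀ x ∈ Set.Icc (1:ℝ) (((3:ℕ):ℝ) - 1), ‖φ x‖ ^ 2 + ‖φ (((3:ℕ):ℝ) - x)‖ ^ 2 = 1 := by
      intro x hx
      rw [e3] at hx ⊢
      exact h3 x ⟨hx.1, by linarith [hx.2]⟩
    -- normalisations
    have n1 : ∀ T : ℝ, 1 < T → TH535.SM.M (K4H66.OL.zr 3 0) T / R446.KR.NN (3 ^ 2) T = M3 T / Real.log T ^ 9 := by
      intro T hT1
      have := Real.log_pos hT1
      rw [NN_eq, M_eq]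
      unfold M3
      field_simp
    have n2 : ∀ T : ℝ, 1 < T → K4H66.HL.mD φ 3 T / R446.KR.NN (3 ^ 2) T = S φ T / Real.log T ^ 9 := by
      intro T hT1
      have := Real.log_pos hT1
      rw [NN_eq, mD_eq φ (by linarith)]
      field_simp
    have n3 : ∀ T : ℝ, 1 < T → ∀ B : ℝ, (TH535.SM.M (K4H66.OL.zr 3 0) T ≤ B * R446.KR.NN (3 ^ 2) T ↔
        M3 T ≤ B * Real.log T ^ 9) := by
      intro T hT1 B
      have hT0 : 0 < T := by linarith
      rw [NN_eq, M_eq]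
      unfold M3
      rw [one_div, inv_mul_le_iff₀ hT0]
      constructor <;> intro h <;> linarith
    have n3' : ∀ T : ℝ, 1 < T → ∀ B : ℝ, (B * R446.KR.NN (3 ^ 2) T ≤ TH535.SM.M (K4H66.OL.zr 3 0) T ↔
        B * Real.log T ^ 9 ≤ M3 T) := by
      intro T hT1 B
      have hT0 : 0 < T := by linarith
      rw [NN_eq, M_eq]
      unfold M3
      rw [one_div, le_inv_mul_iff₀ hT0]
      constructor <;> intro h <;> linarith
    have n4 : ∀ T : ℝ, 1 < T → ∀ B : ℝ, (K4H66.HL.mD φ 3 T ≤ B * R446.KR.NN (3 ^ 2) T ↔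
        S φ T ≤ B * Real.log T ^ 9) := by
      intro T hT1 B
      have hT0 : 0 < T := by linarith
      rw [NN_eq, mD_eq φ hT0.ne', show B * (T * Real.log T ^ 9) = T * (B * Real.log T ^ 9) by ring,
        mul_le_mul_iff_right₀ hT0]
    have n4' : ∀ T : ℝ, 1 < T → ∀ B : ℝ, (B * R446.KR.NN (3 ^ 2) T ≤ K4H66.HL.mD φ 3 T ↔
        B * Real.log T ^ 9 ≤ S φ T) := by
      intro T hT1 B
      have hT0 : 0 < T := by linarith
      rw [NN_eq, mD_eq φ hT0.ne', show B * (T * Real.log T ^ 9) = T * (B * Real.log T ^ 9) by ring,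
        mul_le_mul_iff_right₀ hT0]
    have n5 : ∀ T : ℝ, 1 < T → ∀ B θ : ℝ, (TH535.SM.M (K4H66.OL.zr 3 0) T ≤ B * T ^ (1 + θ) ↔
        M3 T ≤ B * T ^ θ) := by
      intro T hT1 B θ
      have hT0 : 0 < T := by linarith
      rw [M_eq, Real.rpow_add hT0, Real.rpow_one]
      unfold M3
      rw [one_div, inv_mul_le_iff₀ hT0]
      constructor <;> intro h <;> linarith
    have n6 : ∀ T : ℝ, 1 < T → ∀ B θ : ℝ, (K4H66.HL.mD φ 3 T ≤ B * T ^ (1 + θ) ↔ S φ T ≤ B * T ^ θ) := by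
      intro T hT1 B θ
      have hT0 : 0 < T := by linarith
      rw [mD_eq φ hT0.ne', Real.rpow_add hT0, Real.rpow_one,
        show B * (T * T ^ θ) = T * (B * T ^ θ) by ring, mul_le_mul_iff_right₀ hT0]
    have main : ∀ c : ℝ, Tendsto (fun T => M3 T / Real.log T ^ 9) atTop (𝓝 c) ↔
        Tendsto (fun T => S φ T / Real.log T ^ 9) atTop (𝓝 (c / 2 + J φ)) := by
      intro c
      have h := K4H66.HL.half_iff hk hT hφ c
      rw [J_eq] at h
      rw [tendsto_congr' (f₁ := fun T => M3 T / Real.log T ^ 9)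
        (f₂ := fun T => TH535.SM.M (K4H66.OL.zr 3 0) T / R446.KR.NN (3 ^ 2) T)
        (by filter_upwards [eventually_gt_atTop 1] with T hT1; exact (n1 T hT1).symm), h]
      exact tendsto_congr' (by filter_upwards [eventually_gt_atTop 1] with T hT1; exact n2 T hT1)
    refine ⟨main, ?_, ?_, ?_, ?_, ?_, ?_⟩
    · have hf : (0:ℝ) < (Nat.factorial 9 : ℝ) := by exact_mod_cast Nat.factorial_pos 9
      have hc : 0 < 42 * a3 / (Nat.factorial 9 : ℝ) := div_pos (mul_pos (by norm_num) a3_pos) hf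
      have h := main (42 * a3 / (Nat.factorial 9 : ℝ))
      have e : 42 * a3 / (Nat.factorial 9 : ℝ) / 2 = 21 * a3 / (Nat.factorial 9 : ℝ) := by ring
      rw [e] at h
      rw [← h]
      obtain ⟨c, hcd⟩ : ∃ c, c = 42 * a3 / (Nat.factorial 9 : ℝ) := ⟨_, rfl⟩
      rw [← hcd] at hc ⊢
      constructor
      · intro h1
        have h2 := h1.const_mul c
        rw [mul_one] at h2
        refine h2.congr fun T => ?_
        rw [mul_comm c (Real.log T ^ 9), ← div_div]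
        field_simp
      · intro h1
        have h2 := h1.div_const c
        rw [div_self hc.ne'] at h2
        refine h2.congr fun T => ?_
        rw [div_div, mul_comm c]
    · intro c h ε hε
      have h1 := K4H66.HL.half_up hk hT hφ (c := c) (fun ε' hε' => by
        filter_upwards [h ε' hε', eventually_gt_atTop 1] with T a1 a2
        rw [J_eq]
        exact (n4 T a2 _).2 a1) ε hε
      filter_upwards [h1, eventually_gt_atTop 1] with T a1 a2
      exact (n3 T a2 _).1 a1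
    · intro c h ε hε
      have h1 := K4H66.HL.half_low hk hT hφ (c := c) (fun ε' hε' => by
        filter_upwards [h ε' hε', eventually_gt_atTop 1] with T a1 a2
        rw [J_eq]
        exact (n4' T a2 _).2 a1) ε hε
      filter_upwards [h1, eventually_gt_atTop 1] with T a1 a2
      exact (n3' T a2 _).1 a1
    · have h := K4H66.HL.half_order hk hT hφ
      constructor
      · rintro ⟨B, hB⟩
        obtain ⟨B', hB'⟩ := h.1 ⟨B, by
          filter_upwards [hB, eventually_gt_atTop 1] with T a1 a2; exact (n3 T a2 _).2 a1⟩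
        exact ⟨B', by filter_upwards [hB', eventually_gt_atTop 1] with T a1 a2; exact (n4 T a2 _).1 a1⟩
      · rintro ⟨B, hB⟩
        obtain ⟨B', hB'⟩ := h.2 ⟨B, by
          filter_upwards [hB, eventually_gt_atTop 1] with T a1 a2; exact (n4 T a2 _).2 a1⟩
        exact ⟨B', by filter_upwards [hB', eventually_gt_atTop 1] with T a1 a2; exact (n3 T a2 _).1 a1⟩
    · intro θ hθ
      have h := K4H66.HL.half_pow hk hT hφ (θ := 1 + θ) (by linarith)
      constructor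
      · rintro ⟨B, hB⟩
        obtain ⟨B', hB'⟩ := h.1 ⟨B, by
          filter_upwards [hB, eventually_gt_atTop 1] with T a1 a2; exact (n5 T a2 _ _).2 a1⟩
        exact ⟨B', by filter_upwards [hB', eventually_gt_atTop 1] with T a1 a2; exact (n6 T a2 _ _).1 a1⟩
      · rintro ⟨B, hB⟩
        obtain ⟨B', hB'⟩ := h.2 ⟨B, by
          filter_upwards [hB, eventually_gt_atTop 1] with T a1 a2; exact (n6 T a2 _ _).2 a1⟩
        exact ⟨B', by filter_upwards [hB', eventually_gt_atTop 1] with T a1 a2; exact (n5 T a2 _ _).1 a1⟩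
    · intro ε hε
      obtain ⟨C, X0, hC, hX0, h⟩ := K4H66.HL.half_exc hk hT hφ hε
      refine ⟨C, X0, fun X hX => ?_⟩
      obtain ⟨E, e1, e2, e3, e4⟩ := h X hX
      refine ⟨E, e1, e2, ?_, fun T hTE => ?_⟩
      · have hEf : volume E ≠ ⊤ := ne_top_of_le_ne_top (by rw [Real.volume_Icc]; exact ENNReal.ofReal_ne_top)
          (measure_mono e2)
        rw [← ENNReal.ofReal_toReal hEf]
        exact ENNReal.ofReal_le_ofReal e3
      · have h5 := e4 T hTE.1 hTE.2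
        rw [M_eq, M_eq, sixth_sub, NN_eq, J_eq] at h5
        have e : K4H66.HL.mD φ 3 T = ∫ t in T..(2 * T), ‖D φ T t‖ ^ 2 := rfl
        rw [e] at h5
        have e2 : 2 * (∫ t in T..(2 * T), ‖D φ T t‖ ^ 2) - (sixth T (2 * T) + 2 * J φ * (T * Real.log T ^ 9)) =
            2 * (∫ t in T..(2 * T), ‖D φ T t‖ ^ 2) - sixth T (2 * T) - 2 * J φ * (T * Real.log T ^ 9) := by ring
        rw [e2]
        exact h5
  · intro δ hδ
    obtain ⟨f, f1, f2, f3, f4⟩ := K4H66.HL.exists_cut (k := 3) (by norm_num) hδ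
    rw [e3] at f2 f4
    refine ⟨fun x => (f x : ℂ), ⟨?_, ?_, ?_⟩, ?_, ?_⟩
    · exact Complex.ofRealCLM.contDiff.comp f1
    · refine HasCompactSupport.intro (isCompact_Icc (a := 1 - δ) (b := 3 / 2 + δ)) fun x hx => ?_
      rw [f2 x hx, ofReal_zero]
    · intro x hx
      rw [Complex.norm_real, Complex.norm_real, Real.norm_eq_abs, Real.norm_eq_abs, sq_abs, sq_abs]
      exact f4 x ⟨hx.1, by linarith [hx.2]⟩
    · intro x hx
      show ((f x : ℝ) : ℂ) = 0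
      rw [f2 x hx, ofReal_zero]
    · exact fun x => ⟨f x, f3 x, rfl⟩

end Pool.Agent.Results.MP_39df77_nt.HalfLengthPolynomial
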