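import Pool.Agent.K4H49.SV.Fin

set_option autoImplicit false

/-!
MP_39df77_nt. The sixth moment of zeta and the variance of `d_3` in the intervals `(x, x + x/T]`,
`T^(1 - δ) ≤ x ≤ T^(3/2 + δ)`.
-/

namespace Pool.Agent.Results.MP_39df77_nt.ShortIntervalVariance

open Complex MeasureTheory Filter Topology
open scoped ContDiff

/-- `∫_0^T |ζ(1/2 + it)|^6 dt` -/
noncomputable def sixth (T : ℝ) : ℝ := ∫ t in (0:ℝ)..T, ‖riemannZeta (1 / 2 + I * t)‖ ^ 6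

/-- `M_3(T)` of the problem -/
noncomputable def M3 (T : ℝ) : ℝ := 1 / T * sixth T

/-- `a_3` of the problem -/
noncomputable def a3 : ℝ :=
  ∏' p : Nat.Primes, ((1 - 1 / (p : ℝ)) ^ 9 * ∑' m : ℕ, ((m + 2).choose 2 : ℝ) ^ 2 * (1 / (p : ℝ)) ^ m)

/-- `d_3(n)`, the number of `(a, b, c)` with `abc = n` -/
def d3 (n : ℕ) : ℕ := (Nat.finMulAntidiag 3 n).card

/-- `p_3(y)`, the residue of `ζ(s)^3 y^(s - 1)` at `s = 1` (a quadratic polynomial in `log y`): `1/(2πi)` times the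
integral over the circle `|s - 1| = 1/4` -/
noncomputable def p3 (y : ℝ) : ℂ := (2 * Real.pi * I)⁻¹ * ∮ s in C(1, 1 / 4), riemannZeta s ^ 3 * (y : ℂ) ^ (s - 1)

/-- The error term for the interval `(x, x + h]`:
`E_3(x, h) = Σ_{x < n ≤ x + h} d_3(n) - ∫_x^{x+h} p_3(y) dy = Δ_3(x + h) - Δ_3(x)` -/
noncomputable def E3 (x h : ℝ) : ℂ := ∑ n ∈ Finset.Ioc ⌊x⌋₊ ⌊x + h⌋₊, (d3 n : ℂ) - ∫ y in x..(x + h), p3 y

/-- The variance in the intervals `(x, x + x/T]`: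
`V_φ(T) = T ∫_0^∞ φ(log x / log T)² |E_3(x, x/T)|² dx / x²` -/
noncomputable def V (φ : ℝ → ℝ) (T : ℝ) : ℝ :=
  T * ∫ x in Set.Ioi (0:ℝ), φ (Real.log x / Real.log T) ^ 2 * ‖E3 x (x / T)‖ ^ 2 / x ^ 2

/-- Admissible cut-offs: smooth, of compact support, `0` on `[b, ∞)` for some `b < 3`, and
`φ(x)² + φ(3 - x)² = 1` for `1 ≤ x ≤ 2` -/
def Admissible (φ : ℝ → ℝ) : Prop :=
  ContDiff ℝ ∞ φ ∧ HasCompactSupport φ ∧ (∃ b : ℝ, b < 3 ∧ ∀ x, b ≤ x → φ x = 0) ∧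
    ∀ x ∈ Set.Icc (1:ℝ) 2, φ x ^ 2 + φ (3 - x) ^ 2 = 1

/-- The constant `(a_3 / 8!) ∫_0^1 (φ(x)² + φ(3 - x)² - 1) x^8 dx`; it is `0` if
`φ(x)² + φ(3 - x)² = 1` on `[0, 3]`. -/
noncomputable def J (φ : ℝ → ℝ) : ℝ :=
  a3 / (Nat.factorial 8 : ℝ) * ∫ x in (0:ℝ)..1, (φ x ^ 2 + φ (3 - x) ^ 2 - 1) * x ^ 8

lemma lc_nat (k : ℕ) (hk : 1 ≤ k) (m : ℕ) : H306R2.lc (k : ℝ) m = ((m + k - 1).choose m : ℝ) := by
  induction m with
  | zero => simp [H306R2.lc]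
  | succ m ih =>
    have h0 : H306R2.lc (k:ℝ) (m + 1) = H306R2.lc k m * ((k + m) / ((m : ℝ) + 1)) := by
      unfold H306R2.lc
      rw [Finset.prod_range_succ]
    rw [h0, ih]
    have h1 : m + 1 + k - 1 = (m + k - 1) + 1 := by omega
    have h2 : ((m + k - 1) + 1) * (m + k - 1).choose m = ((m + k - 1) + 1).choose (m + 1) * (m + 1) :=
      Nat.add_one_mul_choose_eq (m + k - 1) m
    have h3 : (((m + k - 1 + 1 : ℕ)) : ℝ) = m + k := by
      rw [show m + k - 1 + 1 = m + k by omega]; push_cast; ring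
    have h4 : ((m : ℝ) + k) * ((m + k - 1).choose m : ℝ) =
        (((m + k - 1) + 1).choose (m + 1) : ℝ) * ((m : ℝ) + 1) := by
      rw [← h3]
      exact_mod_cast h2
    rw [h1]
    have h5 : (m : ℝ) + 1 ≠ 0 := by positivity
    rw [← mul_div_assoc, div_eq_iff h5, ← h4]
    ring

lemma a3_eq : a3 = H306R2.aF ((3:ℕ):ℝ) := by
  unfold a3 H306R2.aF
  refine tprod_congr fun p => ?_
  congr 1
  · have h := Real.rpow_natCast (1 - 1 / (p : ℝ)) 9
    rw [← h]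
    congr 1
    norm_num
  · refine tsum_congr fun m => ?_
    rw [lc_nat 3 (by norm_num)]
    congr 3
    rw [show m + 3 - 1 = m + 2 by omega, ← Nat.choose_symm (by omega : 2 ≤ m + 2)]
    congr 1

lemma a3_pos : 0 < a3 := by
  rw [a3_eq]
  exact H306R2.aF_pos (by norm_num)

lemma z_eq (t : ℝ) : ‖K4H66.OL.zr 3 0 t‖ ^ 2 = ‖riemannZeta (1 / 2 + I * t)‖ ^ 6 := by
  unfold K4H66.OL.zr
  rw [norm_pow, ← pow_mul]
  norm_num
  rw [mul_comm]

lemma M_eq (T : ℝ) : TH535.SM.M (K4H66.OL.zr 3 0) T = sixth T := by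
  unfold TH535.SM.M sixth
  simp_rw [z_eq]

lemma NN_eq (T : ℝ) : R446.KR.NN (3 ^ 2) T = T * Real.log T ^ 9 := by
  unfold R446.KR.NN
  norm_num

lemma J_eq (φ : ℝ → ℝ) : K4H66.HL.Jc (fun x => (φ x : ℂ)) 3 = J φ := by
  unfold K4H66.HL.Jc J K4H66.HL.we K4H66.HL.g0
  rw [a3_eq, div_mul_eq_mul_div, mul_div_assoc, ← intervalIntegral.integral_div]
  congr 1
  refine intervalIntegral.integral_congr fun x _ => ?_
  simp only [Complex.norm_real, Real.norm_eq_abs, sq_abs]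
  norm_num
  ring

lemma E3_eq (x h : ℝ) : E3 x h = K4H49.SV.ET 3 x h := rfl

lemma V_eq (φ : ℝ → ℝ) (T : ℝ) : V φ T = K4H49.SV.Vo (fun x => (φ x : ℂ)) 3 T := by
  unfold V K4H49.SV.Vo
  congr 1
  refine integral_congr_ae (Eventually.of_forall fun x => ?_)
  simp only [Complex.norm_real, Real.norm_eq_abs, sq_abs, E3_eq]

/-- **Main theorem.**
For every admissible `φ`:
(1) for every real `c`, `M_3(T)/log^9 T → c` if and only if `V_φ(T)/log^9 T → c/2 + J_φ`;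
(2) the conjecture Q1 holds if and only if `V_φ(T)/log^9 T → 21 a_3/9! + J_φ`;
(3) `M_3(T) = O(log^9 T)` if and only if `V_φ(T) = O(log^9 T)`;
(4) for `0 < θ ≤ 1/2`, `M_3(T) = O(T^θ)` if and only if `V_φ(T) = O(T^θ)`.
(5) For every `0 < δ ≤ 1` there is an admissible `φ` with values in `[0, 1]` and support in `[1 - δ, 3/2 + δ]`: only
the intervals `(x, x + x/T]` with `T^(1 - δ) ≤ x ≤ T^(3/2 + δ)` occur in `V_φ(T)`. -/
theorem result :
    (∀ φ : ℝ → ℝ, Admissible φ →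
      (∀ c : ℝ, Tendsto (fun T => M3 T / Real.log T ^ 9) atTop (𝓝 c) ↔
        Tendsto (fun T => V φ T / Real.log T ^ 9) atTop (𝓝 (c / 2 + J φ))) ∧
      (Tendsto (fun T => M3 T / (42 * a3 / (Nat.factorial 9 : ℝ) * Real.log T ^ 9)) atTop (𝓝 1) ↔
        Tendsto (fun T => V φ T / Real.log T ^ 9) atTop (𝓝 (21 * a3 / (Nat.factorial 9 : ℝ) + J φ))) ∧
      ((∃ B : ℝ, ∀ᶠ T in atTop, M3 T ≤ B * Real.log T ^ 9) ↔ ∃ B : ℝ, ∀ᶠ T in atTop, V φ T ≤ B * Real.log T ^ 9) ∧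
      (∀ θ : ℝ, 0 < θ → θ ≤ 1 / 2 →
        ((∃ B : ℝ, ∀ᶠ T in atTop, M3 T ≤ B * T ^ θ) ↔ ∃ B : ℝ, ∀ᶠ T in atTop, V φ T ≤ B * T ^ θ))) ∧
    (∀ δ : ℝ, 0 < δ → δ ≤ 1 → ∃ φ : ℝ → ℝ, Admissible φ ∧ (∀ x, x ∉ Set.Icc (1 - δ) (3 / 2 + δ) → φ x = 0) ∧
      ∀ x, φ x ∈ Set.Icc (0:ℝ) 1) := by
  have e3 : ((3:ℕ):ℝ) = 3 := by norm_num
  constructor
  · rintro φ ⟨h1, h2, ⟨b', hb', hb''⟩, h3⟩
    set ψ : ℝ → ℂ := fun x => (φ x : ℂ) with hψ
    have hT : K4H66.HL.TS ψ := by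
      refine ⟨Complex.ofRealCLM.contDiff.comp h1, ?_⟩
      exact h2.comp_left (g := fun x : ℝ => (x : ℂ)) Complex.ofReal_zero
    have hr : ∀ x, (starRingEnd ℂ) (ψ x) = ψ x := fun x => Complex.conj_ofReal _
    have hk : 2 ≤ 3 := by norm_num
    have hφ : ∀ x ∈ Set.Icc (1:ℝ) (((3:ℕ):ℝ) - 1), ‖ψ x‖ ^ 2 + ‖ψ (((3:ℕ):ℝ) - x)‖ ^ 2 = 1 := by
      intro x hx
      rw [e3] at hx ⊢
      simp only [hψ, Complex.norm_real, Real.norm_eq_abs, sq_abs]
      exact h3 x ⟨hx.1, by linarith [hx.2]⟩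
    set b : ℝ := max b' 1 with hbd
    have hb0 : 0 < b := lt_of_lt_of_le one_pos (le_max_right _ _)
    have hb3 : b < 3 := max_lt hb' (by norm_num)
    have hb : ∀ ξ, b ≤ ξ → ψ ξ = 0 := by
      intro ξ hξ
      simp only [hψ]
      rw [hb'' ξ ((le_max_left _ _).trans hξ), Complex.ofReal_zero]
    -- normalisations
    have n1 : ∀ T : ℝ, 1 < T → TH535.SM.M (K4H66.OL.zr 3 0) T / R446.KR.NN (3 ^ 2) T = M3 T / Real.log T ^ 9 := by
      intro T hT1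
      have := Real.log_pos hT1
      rw [NN_eq, M_eq]
      unfold M3
      field_simp
    have n3 : ∀ T : ℝ, 1 < T → ∀ B : ℝ, (TH535.SM.M (K4H66.OL.zr 3 0) T ≤ B * R446.KR.NN (3 ^ 2) T ↔
        M3 T ≤ B * Real.log T ^ 9) := by
      intro T hT1 B
      have hT0 : 0 < T := by linarith
      rw [NN_eq, M_eq]
      unfold M3
      rw [one_div, inv_mul_le_iff₀ hT0]
      constructor <;> intro h <;> linarith
    have n5 : ∀ T : ℝ, 1 < T → ∀ B θ : ℝ, (TH535.SM.M (K4H66.OL.zr 3 0) T ≤ B * T ^ (1 + θ) ↔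
        M3 T ≤ B * T ^ θ) := by
      intro T hT1 B θ
      have hT0 : 0 < T := by linarith
      rw [M_eq, Real.rpow_add hT0, Real.rpow_one]
      unfold M3
      rw [one_div, inv_mul_le_iff₀ hT0]
      constructor <;> intro h <;> linarith
    have main : ∀ c : ℝ, Tendsto (fun T => M3 T / Real.log T ^ 9) atTop (𝓝 c) ↔
        Tendsto (fun T => V φ T / Real.log T ^ 9) atTop (𝓝 (c / 2 + J φ)) := by
      intro c
      have h := K4H49.SV.main_iff hk hT hr hφ hb0 hb3 hb c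
      rw [J_eq] at h
      rw [tendsto_congr' (f₁ := fun T => M3 T / Real.log T ^ 9)
        (f₂ := fun T => TH535.SM.M (K4H66.OL.zr 3 0) T / R446.KR.NN (3 ^ 2) T)
        (by filter_upwards [eventually_gt_atTop 1] with T hT1; exact (n1 T hT1).symm), h]
      refine tendsto_congr fun T => ?_
      rw [V_eq, show (3 ^ 2 : ℕ) = 9 by norm_num]
    refine ⟨main, ?_, ?_, ?_⟩
    · have hf : (0:ℝ) < (Nat.factorial 9 : ℝ) := by exact_mod_cast Nat.factorial_pos 9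
      have hc : 0 < 42 * a3 / (Nat.factorial 9 : ℝ) := div_pos (mul_pos (by norm_num) a3_pos) hf
      have h := main (42 * a3 / (Nat.factorial 9 : ℝ))
      have e : 42 * a3 / (Nat.factorial 9 : ℝ) / 2 = 21 * a3 / (Nat.factorial 9 : ℝ) := by ring
      rw [e] at h
      rw [← h]
      obtain ⟨c, hcd⟩ : ∃ c, c = 42 * a3 / (Nat.factorial 9 : ℝ) := ⟨_, rfl⟩
      rw [← hcd] at hc ⊢
      constructor
      · intro h1
        have h2 := h1.const_mul c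
        rw [mul_one] at h2
        refine h2.congr fun T => ?_
        rw [mul_comm c (Real.log T ^ 9), ← div_div]
        field_simp
      · intro h1
        have h2 := h1.div_const c
        rw [div_self hc.ne'] at h2
        refine h2.congr fun T => ?_
        rw [div_div, mul_comm c]
    · have h := K4H49.SV.main_ord hk hT hr hφ hb0 hb3 hb
      constructor
      · rintro ⟨B, hB⟩
        obtain ⟨B', hB'⟩ := h.1 ⟨B, by
          filter_upwards [hB, eventually_gt_atTop 1] with T a1 a2; exact (n3 T a2 _).2 a1⟩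
        exact ⟨B', by filter_upwards [hB'] with T a1; rw [V_eq]; exact a1⟩
      · rintro ⟨B, hB⟩
        obtain ⟨B', hB'⟩ := h.2 ⟨B, by filter_upwards [hB] with T a1; rw [V_eq] at a1; exact a1⟩
        exact ⟨B', by filter_upwards [hB', eventually_gt_atTop 1] with T a1 a2; exact (n3 T a2 _).1 a1⟩
    · intro θ hθ hθ1
      have h := K4H49.SV.main_pow hk hT hr hφ hb0 hb3 hb hθ hθ1
      constructor
      · rintro ⟨B, hB⟩
        obtain ⟨B', hB'⟩ := h.1 ⟨B, by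
          filter_upwards [hB, eventually_gt_atTop 1] with T a1 a2; exact (n5 T a2 _ _).2 a1⟩
        exact ⟨B', by filter_upwards [hB'] with T a1; rw [V_eq]; exact a1⟩
      · rintro ⟨B, hB⟩
        obtain ⟨B', hB'⟩ := h.2 ⟨B, by filter_upwards [hB] with T a1; rw [V_eq] at a1; exact a1⟩
        exact ⟨B', by filter_upwards [hB', eventually_gt_atTop 1] with T a1 a2; exact (n5 T a2 _ _).1 a1⟩
  · intro δ hδ hδ1
    obtain ⟨f, f1, f2, f3, f4⟩ := K4H66.HL.exists_cut (k := 3) (by norm_num) hδ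
    rw [e3] at f2 f4
    refine ⟨f, ⟨f1, ?_, ⟨11 / 4, by norm_num, ?_⟩, ?_⟩, f2, f3⟩
    · exact HasCompactSupport.intro (isCompact_Icc (a := 1 - δ) (b := 3 / 2 + δ)) fun x hx => f2 x hx
    · intro x hx
      exact f2 x fun h => by linarith [h.2]
    · intro x hx
      exact f4 x ⟨hx.1, by linarith [hx.2]⟩

end Pool.Agent.Results.MP_39df77_nt.ShortIntervalVariance
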